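import Pool.Agent.Lib.MP_f65b1b_al.TorRank

/-!
# Powers of monomial ideals
-/

namespace Pool.Agent.Lib.MP_f65b1b_al

open CategoryTheory MvPolynomial Pointwise

variable {n : ℕ} (K : Type) [Field K]

/-- Monomial ideal with given set of exponents. -/
noncomputable def mI (E : Set (Fin n →₀ ℕ)) : Ideal (MvPolynomial (Fin n) K) :=
  Ideal.span ((fun s => monomial s (1 : K)) '' E)

lemma mI_mul (E F : Set (Fin n →₀ ℕ)) : mI K E * mI K F = mI K (E + F) := by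
  rw [mI, mI, Ideal.span_mul_span', mI]
  congr 1
  ext f
  simp only [Set.mem_mul, Set.mem_image, Set.mem_add]
  constructor
  · rintro ⟨_, ⟨s, hs, rfl⟩, _, ⟨t, ht, rfl⟩, rfl⟩
    exact ⟨s + t, ⟨s, hs, t, ht, rfl⟩, by rw [monomial_mul, one_mul]⟩
  · rintro ⟨_, ⟨s, hs, t, ht, rfl⟩, rfl⟩
    exact ⟨_, ⟨s, hs, rfl⟩, _, ⟨t, ht, rfl⟩, by rw [monomial_mul, one_mul]⟩

lemma mI_pow (E : Set (Fin n →₀ ℕ)) (h : ℕ) : mI K E ^ h = mI K (h • E) := by
  induction h with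
  | zero =>
    rw [pow_zero, zero_nsmul, mI]
    simp only [Set.image_zero, ← C_apply, C_1, Ideal.span_singleton_one]
    exact Ideal.one_eq_top
  | succ h ih => rw [pow_succ, ih, mI_mul, succ_nsmul]

/-- The upper set generated by a set of exponents. -/
def upper (E : Set (Fin n →₀ ℕ)) : Set (Fin n →₀ ℕ) := {a | ∃ e ∈ E, e ≤ a}

lemma isUpperSet_upper (E : Set (Fin n →₀ ℕ)) : IsUpperSet (upper E) := by
  rintro a b hab ⟨e, he, hea⟩
  exact ⟨e, he, hea.trans hab⟩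

lemma mem_mI (E : Set (Fin n →₀ ℕ)) (f : MvPolynomial (Fin n) K) :
    f ∈ mI K E ↔ ∀ a ∈ f.support, a ∈ upper E :=
  mem_ideal_span_monomial_image

theorem exists_rank_tor_eq (n : ℕ) :
    ∃ N : ℤ, N ≠ 0 ∧ ∀ (L : Type) [Field L], (N : L) ≠ 0 →
      ∀ (E : Set (Fin n →₀ ℕ)) (i : ℕ),
        Module.rank L ((ModuleCat.restrictScalars (C : L →+* MvPolynomial (Fin n) L)).obj
          (((Tor (ModuleCat.{0} (MvPolynomial (Fin n) L)) i).obj
            (ModuleCat.of _ (mI L E))).obj (resid n L))) =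
        Module.rank ℚ ((ModuleCat.restrictScalars (C : ℚ →+* MvPolynomial (Fin n) ℚ)).obj
          (((Tor (ModuleCat.{0} (MvPolynomial (Fin n) ℚ)) i).obj
            (ModuleCat.of _ (mI ℚ E))).obj (resid n ℚ))) := by
  obtain ⟨N, hN, h⟩ := exists_finrank_Hc_eq n
  refine ⟨N, hN, fun L _ hL E i => ?_⟩
  rw [rank_tor_eq_sum (mem_mI L E), rank_tor_eq_sum (mem_mI ℚ E)]
  congr 1
  funext b
  rw [h L hL _ (downClosed_Fam (isUpperSet_upper E) b) i]

end Pool.Agent.Lib.MP_f65b1b_al
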