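import Mathlib

section

/-!
# The total Koszul differential with signs
-/

namespace Pool.Agent.Lib.MP_f65b1b_al

open Finset

variable {n : ℕ}

/-- The sign `(-1)^{#{k ∈ τ : k < j}}`. -/
def sgn (j : Fin n) (τ : Finset (Fin n)) : ℤ := (-1) ^ ((τ.filter (· < j)).card)

lemma sgn_mul_self (j : Fin n) (τ : Finset (Fin n)) : sgn j τ * sgn j τ = 1 := by
  unfold sgn
  rw [← mul_pow]
  simp

lemma sgn_insert {j k : Fin n} {τ : Finset (Fin n)} (hk : k ∉ τ) :
    sgn j (insert k τ) = (if k < j then -1 else 1) * sgn j τ := by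
  unfold sgn
  rw [Finset.filter_insert]
  split_ifs with h
  · rw [Finset.card_insert_of_notMem (by simp [hk]), pow_succ]
    ring
  · simp

lemma sgn_swap {j k : Fin n} {τ : Finset (Fin n)} (hj : j ∉ τ) (hk : k ∉ τ) (hjk : j ≠ k) :
    sgn j τ * sgn k (insert j τ) + sgn k τ * sgn j (insert k τ) = 0 := by
  rw [sgn_insert hj, sgn_insert hk]
  rcases lt_or_gt_of_ne hjk with h | h
  · rw [if_pos h, if_neg (not_lt.mpr h.le)]; ring
  · rw [if_neg (not_lt.mpr h.le), if_pos h]; ring

lemma sgn_swap' {j k : Fin n} {τ : Finset (Fin n)} (hj : j ∉ τ) (hk : k ∉ τ) (hjk : j ≠ k) :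
    sgn j (insert k τ) * sgn k (insert j τ) + sgn k τ * sgn j τ = 0 := by
  rw [sgn_insert hj, sgn_insert hk]
  rcases lt_or_gt_of_ne hjk with h | h
  · rw [if_pos h, if_neg (not_lt.mpr h.le)]; ring
  · rw [if_neg (not_lt.mpr h.le), if_pos h]; ring

variable {S M : Type*} [CommRing S] [AddCommGroup M] [Module S M]

/-- The total Koszul differential. -/
def D (x : Fin n → S) : (Finset (Fin n) → M) →ₗ[S] (Finset (Fin n) → M) where
  toFun f τ := ∑ j, if j ∈ τ then 0 else sgn j τ • x j • f (insert j τ)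
  map_add' f g := by
    funext τ
    simp only [Pi.add_apply, smul_add]
    rw [← Finset.sum_add_distrib]
    refine Finset.sum_congr rfl fun j _ => ?_
    split_ifs <;> simp
  map_smul' c f := by
    funext τ
    simp only [Pi.smul_apply, RingHom.id_apply, Finset.smul_sum]
    refine Finset.sum_congr rfl fun j _ => ?_
    split_ifs
    · simp
    · rw [smul_comm c (sgn j τ), smul_comm c (x j)]

lemma D_apply (x : Fin n → S) (f : Finset (Fin n) → M) (τ : Finset (Fin n)) :
    D x f τ = ∑ j, if j ∈ τ then 0 else sgn j τ • x j • f (insert j τ) := rfl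

lemma D_D (x : Fin n → S) (f : Finset (Fin n) → M) : D x (D x f) = 0 := by
  funext τ
  rw [D_apply]
  have h1 : ∀ j : Fin n, (if j ∈ τ then (0 : M) else sgn j τ • x j • D x f (insert j τ)) =
      ∑ k, (if j ∈ τ ∨ k ∈ insert j τ then (0 : M) else
        (sgn j τ * sgn k (insert j τ)) • (x j * x k) • f (insert k (insert j τ))) := by
    intro j
    by_cases hj : j ∈ τ
    · simp [hj]
    · rw [if_neg hj, D_apply, Finset.smul_sum, Finset.smul_sum]
      refine Finset.sum_congr rfl fun k _ => ?_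
      by_cases hk : k ∈ insert j τ
      · simp [hk]
      · rw [if_neg hk, if_neg (by tauto), mul_smul, mul_smul, smul_comm (x j) (sgn k _)]
  rw [Finset.sum_congr rfl fun j _ => h1 j, ← Finset.sum_product']
  refine Finset.sum_involution (fun p _ => (p.2, p.1)) ?_ ?_ ?_ ?_
  · rintro ⟨j, k⟩ -
    simp only [Finset.mem_insert]
    by_cases hj : j ∈ τ
    · simp [hj]
    · by_cases hk : k ∈ τ
      · simp [hk]
      · by_cases hjk : j = k
        · simp [hjk]
        · rw [if_neg (by tauto), if_neg (by rintro (h | h | h); exacts [hk h, hjk h, hj h]),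
            mul_comm (x k) (x j), Finset.insert_comm k j, ← add_smul, sgn_swap hj hk hjk, zero_smul]
  · rintro ⟨j, k⟩ - hne heq
    apply hne
    have : j = k := by simpa using (Prod.ext_iff.mp heq).2
    simp [this]
  · intro a _; simp
  · intro a _; simp

/-- The homotopy given by joining with a vertex `v`. -/
def joinV (v : Fin n) (f : Finset (Fin n) → M) : Finset (Fin n) → M := fun σ =>
  if v ∈ σ then sgn v (σ.erase v) • f (σ.erase v) else 0

lemma D_joinV (v : Fin n) (f : Finset (Fin n) → M) :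
    D (fun _ => (1 : S)) (joinV v f) + joinV v (D (fun _ => (1 : S)) f) = f := by
  funext τ
  rw [Pi.add_apply]
  by_cases hv : v ∈ τ
  · obtain ⟨τ', hτ', rfl⟩ : ∃ τ', v ∉ τ' ∧ τ = insert v τ' :=
      ⟨τ.erase v, by simp, by rw [Finset.insert_erase hv]⟩
    rw [D_apply]
    simp only [joinV, Finset.mem_insert_self, if_true, Finset.erase_insert hτ', one_smul]
    rw [D_apply, Finset.smul_sum, ← Finset.sum_add_distrib]
    rw [Finset.sum_eq_single v]
    · simp [hτ', ← mul_smul, sgn_mul_self]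
    · intro j _ hjv
      by_cases hj : j ∈ τ'
      · simp [hj]
      · rw [if_neg (by simp [hj, hjv]), if_neg hj, if_pos (by simp)]
        have e1 : (insert j (insert v τ')).erase v = insert j τ' := by
          rw [Finset.insert_comm, Finset.erase_insert]
          simp [hτ', Ne.symm hjv]
        rw [e1, one_smul, ← mul_smul, ← mul_smul, ← add_smul, sgn_swap' hj hτ' hjv, zero_smul]
    · simp
  · have h2 : joinV v (D (fun _ => (1 : S)) f) τ = 0 := by simp [joinV, hv]
    rw [h2, add_zero, D_apply, Finset.sum_eq_single v]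
    · simp [hv, joinV, ← mul_smul, sgn_mul_self]
    · intro j _ hjv
      by_cases hj : j ∈ τ
      · simp [hj]
      · simp [hj, joinV, hv, Ne.symm hjv]
    · simp

end Pool.Agent.Lib.MP_f65b1b_al
end

section

section

/-!
# The rank of an integer matrix over all fields but finitely many characteristics
-/

namespace Pool.Agent.Lib.MP_f65b1b_al

open Matrix

lemma exists_rows {L : Type*} [Field L] {m n : Type*} [Fintype m] [Fintype n]
    (A : Matrix m n L) {k : ℕ} (hk : A.rank = k) :
    ∃ r : Fin k → m, LinearIndependent L (A.submatrix r id).row := by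
  obtain ⟨f, hf, -, hli⟩ := Submodule.exists_fun_fin_finrank_span_eq L (Set.range A.row)
  choose r hr using hf
  have hk' : k = Module.finrank L (Submodule.span L (Set.range A.row)) := by
    rw [← hk, Matrix.rank_eq_finrank_span_row]
  refine ⟨fun i => r (Fin.cast hk' i), ?_⟩
  have : (A.submatrix (fun i => r (Fin.cast hk' i)) id).row = f ∘ Fin.cast hk' := by
    funext i
    rw [Function.comp_apply, ← hr]
    rfl
  rw [this]
  exact hli.comp _ (Fin.cast_injective hk')

lemma exists_minor {L : Type*} [Field L] {m n : Type*} [Fintype m] [Fintype n]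
    [DecidableEq m] [DecidableEq n] (A : Matrix m n L) :
    ∃ (r : Fin A.rank → m) (c : Fin A.rank → n), (A.submatrix r c).det ≠ 0 := by
  obtain ⟨r, hr⟩ := exists_rows A rfl
  have h1 : (A.submatrix r id).rank = A.rank := by
    have := LinearIndependent.rank_matrix hr
    simpa using this
  obtain ⟨c, hc⟩ := exists_rows (A.submatrix r id)ᵀ (k := A.rank)
    (by rw [Matrix.rank_transpose, h1])
  refine ⟨r, c, ?_⟩
  have h2 : ((A.submatrix r id)ᵀ.submatrix c id) = (A.submatrix r c)ᵀ := by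
    ext i j; rfl
  rw [h2] at hc
  have h3 : IsUnit (A.submatrix r c)ᵀ := Matrix.linearIndependent_rows_iff_isUnit.mp hc
  rw [← Matrix.det_transpose]
  exact ((Matrix.isUnit_iff_isUnit_det _).mp h3).ne_zero

lemma le_rank_of_minor {L : Type*} [Field L] {m n : Type*} [Fintype m] [Fintype n]
    [DecidableEq m] [DecidableEq n] (A : Matrix m n L) {k : ℕ} (r : Fin k → m) (c : Fin k → n)
    (h : (A.submatrix r c).det ≠ 0) : k ≤ A.rank := by
  have h1 : (A.submatrix r c).rank = k := by
    have h2 : IsUnit (A.submatrix r c) := (Matrix.isUnit_iff_isUnit_det _).mpr (IsUnit.mk0 _ h)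
    rw [Matrix.rank_of_isUnit _ h2]
    simp
  calc k = (A.submatrix r c).rank := h1.symm
    _ ≤ A.rank := Matrix.rank_submatrix_le A r c

lemma det_submatrix_map {L : Type*} [Field L] {m n : Type*} (A : Matrix m n ℤ) {k : ℕ}
    (r : Fin k → m) (c : Fin k → n) :
    ((A.map (Int.cast : ℤ → L)).submatrix r c).det = (((A.submatrix r c).det : ℤ) : L) := by
  have h : ((A.map (Int.cast : ℤ → L)).submatrix r c) =
      (Int.castRingHom L).mapMatrix (A.submatrix r c) := by
    ext i j; simp
  rw [h, ← RingHom.map_det]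
  rfl

/-- The rank of an integer matrix over a field of characteristic outside a finite set. -/
theorem exists_rank_eq {m n : Type*} [Fintype m] [Fintype n] [DecidableEq m] [DecidableEq n]
    (A : Matrix m n ℤ) :
    ∃ N : ℤ, N ≠ 0 ∧ ∀ (L : Type) [Field L], (N : L) ≠ 0 →
      (A.map (Int.cast : ℤ → L)).rank = (A.map (Int.cast : ℤ → ℚ)).rank := by
  obtain ⟨r, c, h⟩ := exists_minor (A.map (Int.cast : ℤ → ℚ))
  rw [det_submatrix_map] at h
  refine ⟨(A.submatrix r c).det, by exact_mod_cast h, fun L _ hL => le_antisymm ?_ ?_⟩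
  · obtain ⟨r', c', h'⟩ := exists_minor (A.map (Int.cast : ℤ → L))
    rw [det_submatrix_map] at h'
    refine le_rank_of_minor _ r' c' ?_
    rw [det_submatrix_map]
    intro h0
    apply h'
    have : (A.submatrix r' c').det = 0 := by exact_mod_cast h0
    rw [this]; simp
  · refine le_rank_of_minor _ r c ?_
    rw [det_submatrix_map]
    exact hL

/-- A common bound for finitely many integer matrices. -/
theorem exists_rank_eq_family {ι : Type*} [Finite ι] {m n : Type*} [Fintype m] [Fintype n]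
    [DecidableEq m] [DecidableEq n] (A : ι → Matrix m n ℤ) :
    ∃ N : ℤ, N ≠ 0 ∧ ∀ (L : Type) [Field L], (N : L) ≠ 0 → ∀ k,
      ((A k).map (Int.cast : ℤ → L)).rank = ((A k).map (Int.cast : ℤ → ℚ)).rank := by
  classical
  have := Fintype.ofFinite ι
  choose N hN hN' using fun k => exists_rank_eq (A k)
  refine ⟨∏ k, N k, Finset.prod_ne_zero_iff.mpr fun k _ => hN k, fun L _ hL k => hN' k L ?_⟩
  rw [Int.cast_prod] at hL
  exact Finset.prod_ne_zero_iff.mp hL k (Finset.mem_univ k)

end Pool.Agent.Lib.MP_f65b1b_al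
end

section

/-!
# The multigraded components of the Koszul complex over a polynomial ring
-/

namespace Pool.Agent.Lib.MP_f65b1b_al

open Finset MvPolynomial

variable {n : ℕ}

/-- The exponent vector of a squarefree monomial. -/
noncomputable def ind (σ : Finset (Fin n)) : Fin n →₀ ℕ :=
  Finsupp.equivFunOnFinite.symm fun j => if j ∈ σ then 1 else 0

@[simp] lemma ind_apply (σ : Finset (Fin n)) (j : Fin n) :
    ind σ j = if j ∈ σ then 1 else 0 := rfl

@[simp] lemma ind_empty : ind (∅ : Finset (Fin n)) = 0 := by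
  ext j; simp

lemma ind_insert {σ : Finset (Fin n)} {j : Fin n} (hj : j ∉ σ) :
    ind (insert j σ) = ind σ + Finsupp.single j 1 := by
  ext k
  rw [Finsupp.add_apply, ind_apply, ind_apply, Finsupp.single_apply]
  by_cases h : j = k
  · subst h; simp [hj]
  · simp [h, Ne.symm h]

lemma ind_le_iff {σ : Finset (Fin n)} {b : Fin n →₀ ℕ} :
    ind σ ≤ b ↔ ∀ j ∈ σ, b j ≠ 0 := by
  rw [Finsupp.le_def]
  constructor
  · intro h j hj
    have := h j
    rw [ind_apply, if_pos hj] at this
    omega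
  · intro h j
    rw [ind_apply]
    split_ifs with hj
    · exact Nat.one_le_iff_ne_zero.mpr (h j hj)
    · exact Nat.zero_le _

lemma ind_mono {σ τ : Finset (Fin n)} {b : Fin n →₀ ℕ} (h : σ ⊆ τ) (hb : ind τ ≤ b) :
    ind σ ≤ b := ind_le_iff.mpr fun j hj => ind_le_iff.mp hb j (h hj)

variable {K : Type*} [CommRing K]

/-- The component in multidegree `b`. -/
noncomputable def comp (b : Fin n →₀ ℕ) :
    (Finset (Fin n) → MvPolynomial (Fin n) K) →ₗ[K] (Finset (Fin n) → K) := by
  classical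
  exact
  { toFun := fun f σ => if ind σ ≤ b then coeff (b - ind σ) (f σ) else 0
    map_add' := by
      intro f g; funext σ
      simp only [Pi.add_apply]
      split_ifs <;> simp
    map_smul' := by
      intro c f; funext σ
      simp only [Pi.smul_apply, RingHom.id_apply]
      split_ifs <;> simp }

open Classical in
lemma comp_apply (b : Fin n →₀ ℕ) (f : Finset (Fin n) → MvPolynomial (Fin n) K)
    (σ : Finset (Fin n)) :
    comp b f σ = if ind σ ≤ b then coeff (b - ind σ) (f σ) else 0 := rfl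

lemma comp_add_ind (a : Fin n →₀ ℕ) (f : Finset (Fin n) → MvPolynomial (Fin n) K)
    (σ : Finset (Fin n)) : comp (a + ind σ) f σ = coeff a (f σ) := by
  rw [comp_apply, if_pos (by simp), add_tsub_cancel_right]

lemma comp_eq_zero {f : Finset (Fin n) → MvPolynomial (Fin n) K} (h : ∀ b, comp b f = 0) :
    f = 0 := by
  funext σ
  refine MvPolynomial.ext _ _ fun a => ?_
  rw [← comp_add_ind, h]
  simp

lemma comp_ext {f g : Finset (Fin n) → MvPolynomial (Fin n) K} (h : ∀ b, comp b f = comp b g) :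
    f = g := by
  rw [← sub_eq_zero]
  apply comp_eq_zero
  intro b
  rw [map_sub, h, sub_self]

lemma comp_D (b : Fin n →₀ ℕ) (f : Finset (Fin n) → MvPolynomial (Fin n) K) :
    comp b (D (fun j => (X j : MvPolynomial (Fin n) K)) f) = D (fun _ => (1 : K)) (comp b f) := by
  classical
  funext τ
  rw [comp_apply, D_apply, D_apply]
  by_cases hτ : ind τ ≤ b
  · rw [if_pos hτ, MvPolynomial.coeff_sum]
    refine Finset.sum_congr rfl fun j _ => ?_
    by_cases hj : j ∈ τ
    · simp [hj]
    · rw [if_neg hj, if_neg hj, one_smul, comp_apply, ind_insert hj]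
      have h1 : coeff (b - ind τ) (sgn j τ • (X j : MvPolynomial (Fin n) K) • f (insert j τ)) =
          sgn j τ • coeff (b - ind τ) (X j * f (insert j τ)) := by
        rw [smul_eq_mul, MvPolynomial.coeff_smul]
      rw [h1, MvPolynomial.coeff_X_mul']
      congr 1
      have h2 : j ∈ (b - ind τ).support ↔ ind τ + Finsupp.single j 1 ≤ b := by
        rw [← ind_insert hj, Finsupp.mem_support_iff, Finsupp.tsub_apply, ind_apply, if_neg hj,
          ind_le_iff]
        rw [ind_le_iff] at hτ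
        simp only [Finset.mem_insert, forall_eq_or_imp, tsub_zero]
        tauto
      by_cases h3 : ind τ + Finsupp.single j 1 ≤ b
      · rw [if_pos (h2.mpr h3), if_pos h3, tsub_tsub]
      · rw [if_neg (fun h => h3 (h2.mp h)), if_neg h3]
  · rw [if_neg hτ]
    symm
    refine Finset.sum_eq_zero fun j _ => ?_
    by_cases hj : j ∈ τ
    · simp [hj]
    · rw [if_neg hj, comp_apply, if_neg, smul_zero, smul_zero]
      exact fun h => hτ (ind_mono (Finset.subset_insert j τ) h)

lemma comp_finite (f : Finset (Fin n) → MvPolynomial (Fin n) K) :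
    {b | comp b f ≠ 0}.Finite := by
  classical
  refine Set.Finite.subset
    (Finset.finite_toSet (Finset.univ.biUnion fun σ => (f σ).support.image (· + ind σ))) ?_
  intro b hb
  obtain ⟨σ, hσ⟩ := Function.ne_iff.mp hb
  rw [comp_apply] at hσ
  by_cases h : ind σ ≤ b
  · rw [if_pos h] at hσ
    simp only [Finset.coe_biUnion, Finset.mem_coe, Finset.mem_univ, Set.iUnion_true,
      Finset.coe_image, Set.mem_iUnion, Set.mem_image]
    exact ⟨σ, b - ind σ, MvPolynomial.mem_support_iff.mpr hσ, tsub_add_cancel_of_le h⟩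
  · rw [if_neg h] at hσ
    exact absurd rfl hσ

/-- The inclusion of the component in multidegree `b`. -/
noncomputable def incl (b : Fin n →₀ ℕ) :
    (Finset (Fin n) → K) →ₗ[K] (Finset (Fin n) → MvPolynomial (Fin n) K) := by
  classical
  exact
  { toFun := fun g σ => monomial (b - ind σ) (g σ)
    map_add' := by
      intro f g; funext σ
      simp
    map_smul' := by
      intro c f; funext σ
      simp [MvPolynomial.smul_monomial] }

lemma incl_apply (b : Fin n →₀ ℕ) (g : Finset (Fin n) → K) (σ : Finset (Fin n)) :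
    incl b g σ = monomial (b - ind σ) (g σ) := rfl

lemma comp_incl_self {b : Fin n →₀ ℕ} {g : Finset (Fin n) → K}
    (hg : ∀ σ, ¬ ind σ ≤ b → g σ = 0) : comp b (incl b g) = g := by
  classical
  funext σ
  rw [comp_apply, incl_apply]
  split_ifs with h
  · simp
  · exact (hg σ h).symm

lemma comp_incl_ne {b b' : Fin n →₀ ℕ} (hb : b ≠ b') {g : Finset (Fin n) → K}
    (hg : ∀ σ, ¬ ind σ ≤ b → g σ = 0) : comp b' (incl b g) = 0 := by
  classical
  funext σ
  rw [comp_apply, incl_apply, Pi.zero_apply]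
  split_ifs with h
  · rw [MvPolynomial.coeff_monomial]
    split_ifs with h2
    · apply hg
      intro h3
      apply hb
      rw [← tsub_add_cancel_of_le h3, h2, tsub_add_cancel_of_le h]
    · rfl
  · rfl

/-- The support condition. -/
def SuppIn (Δ : Set (Finset (Fin n))) (i : ℕ) (g : Finset (Fin n) → K) : Prop :=
  ∀ σ, ¬ (σ ∈ Δ ∧ σ.card = i) → g σ = 0

/-- Upper Koszul family of an upper set of exponents. -/
def Fam (U : Set (Fin n →₀ ℕ)) (b : Fin n →₀ ℕ) : Set (Finset (Fin n)) :=
  {σ | ind σ ≤ b ∧ b - ind σ ∈ U}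

lemma mem_Fam {U : Set (Fin n →₀ ℕ)} {b : Fin n →₀ ℕ} {σ : Finset (Fin n)} :
    σ ∈ Fam U b ↔ ind σ ≤ b ∧ b - ind σ ∈ U := Iff.rfl

/-- The condition that `f` is a Koszul chain with coefficients in a monomial ideal. -/
def ChainIn (U : Set (Fin n →₀ ℕ)) (i : ℕ) (f : Finset (Fin n) → MvPolynomial (Fin n) K) : Prop :=
  ∀ σ, (∀ a ∈ (f σ).support, a ∈ U) ∧ (σ.card ≠ i → f σ = 0)

lemma chainIn_iff {U : Set (Fin n →₀ ℕ)} {i : ℕ}
    {f : Finset (Fin n) → MvPolynomial (Fin n) K} :
    ChainIn U i f ↔ ∀ b, SuppIn (Fam U b) i (comp b f) := by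
  classical
  constructor
  · intro h b σ hσ
    rw [comp_apply]
    split_ifs with hb
    · by_cases hc : σ.card = i
      · by_contra hne
        apply hσ
        exact ⟨⟨hb, (h σ).1 _ (MvPolynomial.mem_support_iff.mpr hne)⟩, hc⟩
      · rw [(h σ).2 hc]; simp
    · rfl
  · intro h σ
    refine ⟨fun a ha => ?_, fun hc => ?_⟩
    · by_contra hU
      rw [MvPolynomial.mem_support_iff, ← comp_add_ind a f σ] at ha
      apply ha
      apply h
      rintro ⟨⟨_, h2⟩, _⟩
      rw [add_tsub_cancel_right] at h2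
      exact hU h2
    · refine MvPolynomial.ext _ _ fun a => ?_
      rw [← comp_add_ind a f σ, h (a + ind σ) σ (fun h => hc h.2)]
      simp

lemma SuppIn.ind_le {U : Set (Fin n →₀ ℕ)} {i : ℕ} {b : Fin n →₀ ℕ} {g : Finset (Fin n) → K}
    (h : SuppIn (Fam U b) i g) : ∀ σ, ¬ ind σ ≤ b → g σ = 0 :=
  fun σ hσ => h σ fun h' => hσ h'.1.1

lemma chainIn_incl {U : Set (Fin n →₀ ℕ)} {i : ℕ} {b : Fin n →₀ ℕ} {g : Finset (Fin n) → K}
    (h : SuppIn (Fam U b) i g) : ChainIn U i (incl b g) := by
  rw [chainIn_iff]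
  intro b'
  by_cases hb : b = b'
  · subst hb
    rw [comp_incl_self h.ind_le]
    exact h
  · rw [comp_incl_ne hb h.ind_le]
    intro σ _; rfl

lemma incl_D {b : Fin n →₀ ℕ} {g : Finset (Fin n) → K}
    (hg : ∀ σ, ¬ ind σ ≤ b → g σ = 0) :
    incl b (D (fun _ => (1 : K)) g) = D (fun j => (X j : MvPolynomial (Fin n) K)) (incl b g) := by
  have hg' : ∀ σ, ¬ ind σ ≤ b → D (fun _ => (1 : K)) g σ = 0 := by
    intro σ hσ
    rw [D_apply]
    refine Finset.sum_eq_zero fun j _ => ?_
    split_ifs with hj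
    · rfl
    · rw [hg _ (fun h => hσ (ind_mono (Finset.subset_insert j σ) h))]
      simp
  apply comp_ext
  intro b'
  rw [comp_D]
  by_cases hb : b = b'
  · subst hb
    rw [comp_incl_self hg, comp_incl_self hg']
  · rw [comp_incl_ne hb hg, comp_incl_ne hb hg', map_zero]

end Pool.Agent.Lib.MP_f65b1b_al
end

section

/-!
# The Koszul chain complex in `ModuleCat`
-/

namespace Pool.Agent.Lib.MP_f65b1b_al

open CategoryTheory Limits MonoidalCategory

/-- Indices of degree `i`. -/
abbrev Idx (n i : ℕ) := {σ : Finset (Fin n) // σ.card = i}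

variable {n : ℕ} {S : Type} [CommRing S]

section Modules

variable {M : Type} [AddCommGroup M] [Module S M]

/-- Extension by zero. -/
def extK (S : Type) [CommRing S] (M : Type) [AddCommGroup M] [Module S M] (i : ℕ) :
    (Idx n i → M) →ₗ[S] (Finset (Fin n) → M) where
  toFun f σ := if h : σ.card = i then f ⟨σ, h⟩ else 0
  map_add' f g := by
    funext σ
    simp only [Pi.add_apply]
    split_ifs <;> simp
  map_smul' c f := by
    funext σ
    simp only [Pi.smul_apply, RingHom.id_apply]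
    split_ifs <;> simp

/-- Restriction. -/
def resK (S : Type) [CommRing S] (M : Type) [AddCommGroup M] [Module S M] (i : ℕ) :
    (Finset (Fin n) → M) →ₗ[S] (Idx n i → M) where
  toFun f σ := f σ.1
  map_add' _ _ := rfl
  map_smul' _ _ := rfl

lemma extK_apply (i : ℕ) (f : Idx n i → M) (σ : Finset (Fin n)) :
    extK S M i f σ = if h : σ.card = i then f ⟨σ, h⟩ else 0 := rfl

lemma resK_apply (i : ℕ) (f : Finset (Fin n) → M) (σ : Idx n i) :
    resK S M i f σ = f σ.1 := rfl

lemma resK_extK (i : ℕ) (f : Idx n i → M) : resK S M i (extK S M i f) = f := by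
  funext σ
  rw [resK_apply, extK_apply, dif_pos σ.2]

lemma extK_resK {i : ℕ} {f : Finset (Fin n) → M} (hf : ∀ σ, σ.card ≠ i → f σ = 0) :
    extK S M i (resK S M i f) = f := by
  funext σ
  rw [extK_apply]
  split_ifs with h
  · rfl
  · exact (hf σ h).symm

lemma extK_supp (i : ℕ) (f : Idx n i → M) (σ : Finset (Fin n)) (hσ : σ.card ≠ i) :
    extK S M i f σ = 0 := by
  rw [extK_apply, dif_neg hσ]

lemma extK_injective (i : ℕ) : Function.Injective (extK (n := n) S M i) :=
  Function.LeftInverse.injective (resK_extK i)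

lemma D_supp (x : Fin n → S) {i : ℕ} {f : Finset (Fin n) → M}
    (hf : ∀ σ, σ.card ≠ i + 1 → f σ = 0) (σ : Finset (Fin n)) (hσ : σ.card ≠ i) :
    D x f σ = 0 := by
  rw [D_apply]
  refine Finset.sum_eq_zero fun j _ => ?_
  split_ifs with hj
  · rfl
  · rw [hf, smul_zero, smul_zero]
    rw [Finset.card_insert_of_notMem hj]
    omega

lemma D_supp_zero (x : Fin n → S) {f : Finset (Fin n) → M}
    (hf : ∀ σ, σ.card ≠ 0 → f σ = 0) : D x f = 0 := by
  funext σ
  rw [D_apply]
  refine Finset.sum_eq_zero fun j _ => ?_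
  split_ifs with hj
  · rfl
  · rw [hf, smul_zero, smul_zero]
    rw [Finset.card_insert_of_notMem hj]
    omega

/-- The Koszul differential `C_{i+1} → C_i`. -/
def dK (x : Fin n → S) (M : Type) [AddCommGroup M] [Module S M] (i : ℕ) :
    (Idx n (i + 1) → M) →ₗ[S] (Idx n i → M) :=
  resK S M i ∘ₗ D x ∘ₗ extK S M (i + 1)

lemma dK_apply (x : Fin n → S) (i : ℕ) (f : Idx n (i + 1) → M) :
    dK x M i f = resK S M i (D x (extK S M (i + 1) f)) := rfl

lemma extK_dK (x : Fin n → S) (i : ℕ) (f : Idx n (i + 1) → M) :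
    extK S M i (dK x M i f) = D x (extK S M (i + 1) f) := by
  rw [dK_apply]
  exact extK_resK (D_supp x (extK_supp (i + 1) f))

lemma dK_dK (x : Fin n → S) (i : ℕ) (f : Idx n (i + 2) → M) :
    dK x M i (dK x M (i + 1) f) = 0 := by
  rw [dK_apply, extK_dK, D_D, map_zero]

end Modules

/-- The Koszul complex of `x` with coefficients in `M`. -/
noncomputable def kosz (x : Fin n → S) (M : ModuleCat.{0} S) : ChainComplex (ModuleCat.{0} S) ℕ :=
  ChainComplex.of (fun i => ModuleCat.of S (Idx n i → M)) (fun i => ModuleCat.ofHom (dK x M i))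
    (by
      intro i
      refine ModuleCat.hom_ext (LinearMap.ext fun f => ?_)
      exact dK_dK x i f)

lemma kosz_d (x : Fin n → S) (M : ModuleCat.{0} S) (i : ℕ) :
    (kosz x M).d (i + 1) i = ModuleCat.ofHom (dK x M i) :=
  ChainComplex.of_d (fun i => ModuleCat.of S (Idx n i → M)) (fun i => ModuleCat.ofHom (dK x M i)) i

lemma kosz_X (x : Fin n → S) (M : ModuleCat.{0} S) (i : ℕ) :
    (kosz x M).X i = ModuleCat.of S (Idx n i → M) := rfl

/-- `M ⊗ S^I ≅ M^I`. -/
noncomputable def tIso (M : ModuleCat.{0} S) (i : ℕ) :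
    ((tensoringLeft (ModuleCat.{0} S)).obj M).obj (ModuleCat.of S (Idx n i → S)) ≅
      ModuleCat.of S (Idx n i → M) :=
  (TensorProduct.piScalarRight S S M (Idx n i)).toModuleIso

open TensorProduct in
lemma piScalarRight_dK (x : Fin n → S) {M : Type} [AddCommGroup M] [Module S M] (j : ℕ)
    (m : M) (f : Idx n (j + 1) → S) :
    dK x M j (TensorProduct.piScalarRight S S M (Idx n (j + 1)) (m ⊗ₜ[S] f)) =
      TensorProduct.piScalarRight S S M (Idx n j) (m ⊗ₜ[S] (dK x S j f)) := by
  rw [TensorProduct.piScalarRight_apply, TensorProduct.piScalarRight_apply,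
    TensorProduct.piScalarRightHom_tmul, TensorProduct.piScalarRightHom_tmul]
  funext τ
  rw [dK_apply, dK_apply, resK_apply, resK_apply, D_apply, D_apply, Finset.sum_smul]
  refine Finset.sum_congr rfl fun k _ => ?_
  by_cases hk : k ∈ τ.1
  · simp [hk]
  · have hc : (insert k τ.1).card = j + 1 := by
      rw [Finset.card_insert_of_notMem hk, τ.2]
    rw [if_neg hk, if_neg hk, extK_apply, extK_apply, dif_pos hc, dif_pos hc]
    simp only [smul_eq_mul]
    rw [smul_assoc, mul_smul]

/-- Tensoring the Koszul complex. -/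
noncomputable def koszIso (x : Fin n → S) (M : ModuleCat.{0} S) :
    (((tensoringLeft (ModuleCat.{0} S)).obj M).mapHomologicalComplex _).obj
      (kosz x (ModuleCat.of S S)) ≅ kosz x M :=
  HomologicalComplex.Hom.isoOfComponents (fun i => tIso M i) (by
    rintro i j (rfl : j + 1 = i)
    rw [kosz_d]
    rw [Functor.mapHomologicalComplex_obj_d, kosz_d]
    refine ModuleCat.hom_ext (TensorProduct.ext' fun m f => ?_)
    exact piScalarRight_dK x j m f)

end Pool.Agent.Lib.MP_f65b1b_al
end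

section

/-!
# Homology of the Koszul complex as a direct sum of the homologies of finite families
-/

namespace Pool.Agent.Lib.MP_f65b1b_al

open Finset MvPolynomial

variable {n : ℕ} (K : Type) [Field K]

/-- Chains of degree `i` supported in the family `Δ`. -/
def Sc (Δ : Set (Finset (Fin n))) (i : ℕ) : Submodule K (Finset (Fin n) → K) where
  carrier := {g | SuppIn Δ i g}
  add_mem' := by
    intro f g hf hg σ hσ
    rw [Pi.add_apply, hf σ hσ, hg σ hσ, add_zero]
  zero_mem' := fun σ _ => rfl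
  smul_mem' := by
    intro c f hf σ hσ
    rw [Pi.smul_apply, hf σ hσ, smul_zero]

/-- Cycles. -/
def Zc (Δ : Set (Finset (Fin n))) (i : ℕ) : Submodule K (Finset (Fin n) → K) :=
  Sc K Δ i ⊓ LinearMap.ker (D (M := K) (fun _ => (1 : K)))

/-- Boundaries. -/
def Bc (Δ : Set (Finset (Fin n))) (i : ℕ) : Submodule K (Finset (Fin n) → K) :=
  (Sc K Δ (i + 1)).map (D (M := K) (fun _ => (1 : K)))

/-- Homology of a family. -/
def Hc (Δ : Set (Finset (Fin n))) (i : ℕ) : Type :=
  ↥(Zc K Δ i) ⧸ (Bc K Δ i).submoduleOf (Zc K Δ i)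

noncomputable instance (Δ : Set (Finset (Fin n))) (i : ℕ) : AddCommGroup (Hc K Δ i) :=
  inferInstanceAs (AddCommGroup (↥(Zc K Δ i) ⧸ (Bc K Δ i).submoduleOf (Zc K Δ i)))

noncomputable instance (Δ : Set (Finset (Fin n))) (i : ℕ) : Module K (Hc K Δ i) :=
  inferInstanceAs (Module K (↥(Zc K Δ i) ⧸ (Bc K Δ i).submoduleOf (Zc K Δ i)))

/-- The class of a cycle. -/
noncomputable def mkHc (Δ : Set (Finset (Fin n))) (i : ℕ) : ↥(Zc K Δ i) →ₗ[K] Hc K Δ i :=
  ((Bc K Δ i).submoduleOf (Zc K Δ i)).mkQ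

lemma mkHc_surjective (Δ : Set (Finset (Fin n))) (i : ℕ) : Function.Surjective (mkHc K Δ i) :=
  Submodule.mkQ_surjective _

variable {K} in
lemma mkHc_eq_zero {Δ : Set (Finset (Fin n))} {i : ℕ} {g : ↥(Zc K Δ i)} :
    mkHc K Δ i g = 0 ↔ (g : Finset (Fin n) → K) ∈ Bc K Δ i :=
  Submodule.Quotient.mk_eq_zero _

instance (Δ : Set (Finset (Fin n))) (i : ℕ) : Module.Finite K (Hc K Δ i) :=
  Module.Finite.of_surjective _ (mkHc_surjective K Δ i)

variable {K} in
lemma mem_Sc {Δ : Set (Finset (Fin n))} {i : ℕ} {g : Finset (Fin n) → K} :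
    g ∈ Sc K Δ i ↔ SuppIn Δ i g := Iff.rfl

variable {K} in
lemma mem_Zc {Δ : Set (Finset (Fin n))} {i : ℕ} {g : Finset (Fin n) → K} :
    g ∈ Zc K Δ i ↔ SuppIn Δ i g ∧ D (fun _ => (1 : K)) g = 0 := by
  rw [Zc, Submodule.mem_inf, mem_Sc, LinearMap.mem_ker]

variable {K} in
lemma mem_Bc {Δ : Set (Finset (Fin n))} {i : ℕ} {g : Finset (Fin n) → K} :
    g ∈ Bc K Δ i ↔ ∃ h, SuppIn Δ (i + 1) h ∧ D (fun _ => (1 : K)) h = g := by
  rw [Bc, Submodule.mem_map]
  rfl

/-- Closed under taking subsets. -/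
def DownClosed (Δ : Set (Finset (Fin n))) : Prop := ∀ σ ∈ Δ, ∀ τ, τ ⊆ σ → τ ∈ Δ

variable {K} in
lemma suppIn_D {Δ : Set (Finset (Fin n))} (hΔ : DownClosed Δ) {i : ℕ} {g : Finset (Fin n) → K}
    (hg : SuppIn Δ (i + 1) g) : SuppIn Δ i (D (fun _ => (1 : K)) g) := by
  intro σ hσ
  rw [D_apply]
  refine Finset.sum_eq_zero fun j _ => ?_
  split_ifs with hj
  · rfl
  · rw [hg, smul_zero, smul_zero]
    rintro ⟨h1, h2⟩
    apply hσ
    refine ⟨hΔ _ h1 _ (Finset.subset_insert j σ), ?_⟩
    rw [Finset.card_insert_of_notMem hj] at h2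
    omega

lemma downClosed_Fam {U : Set (Fin n →₀ ℕ)} (hU : IsUpperSet U) (b : Fin n →₀ ℕ) :
    DownClosed (Fam U b) := by
  rintro σ ⟨h1, h2⟩ τ hτ
  refine ⟨ind_mono hτ h1, hU ?_ h2⟩
  apply tsub_le_tsub_left
  rw [Finsupp.le_def]
  intro j
  rw [ind_apply, ind_apply]
  split_ifs with h3 h4
  · exact le_rfl
  · exact absurd (hτ h3) h4
  · exact Nat.zero_le _
  · exact le_rfl

/-- Koszul cycles of degree `i` with coefficients in a monomial ideal. -/
def ZK (U : Set (Fin n →₀ ℕ)) (i : ℕ) : Submodule K (Finset (Fin n) → MvPolynomial (Fin n) K) where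
  carrier := {f | ChainIn U i f ∧ D (fun j => (X j : MvPolynomial (Fin n) K)) f = 0}
  add_mem' := by
    rintro f g ⟨hf, hf'⟩ ⟨hg, hg'⟩
    refine ⟨?_, by rw [map_add, hf', hg', add_zero]⟩
    rw [chainIn_iff] at *
    intro b
    rw [map_add]
    exact (Sc K (Fam U b) i).add_mem (hf b) (hg b)
  zero_mem' := by
    refine ⟨?_, by rw [map_zero]⟩
    rw [chainIn_iff]
    intro b
    rw [map_zero]
    exact (Sc K (Fam U b) i).zero_mem
  smul_mem' := by
    rintro c f ⟨hf, hf'⟩
    refine ⟨?_, ?_⟩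
    · rw [chainIn_iff] at *
      intro b
      rw [map_smul]
      exact (Sc K (Fam U b) i).smul_mem c (hf b)
    · have : c • f = (C c : MvPolynomial (Fin n) K) • f := by
        funext σ
        simp [MvPolynomial.smul_eq_C_mul]
      rw [this, map_smul, hf', smul_zero]

/-- Koszul boundaries of degree `i` with coefficients in a monomial ideal. -/
def BK (U : Set (Fin n →₀ ℕ)) (i : ℕ) : Submodule K (Finset (Fin n) → MvPolynomial (Fin n) K) where
  carrier := {f | ∃ g, ChainIn U (i + 1) g ∧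
    D (fun j => (X j : MvPolynomial (Fin n) K)) g = f}
  add_mem' := by
    rintro _ _ ⟨f, hf, rfl⟩ ⟨g, hg, rfl⟩
    refine ⟨f + g, ?_, by rw [map_add]⟩
    rw [chainIn_iff] at *
    intro b
    rw [map_add]
    exact (Sc K (Fam U b) (i + 1)).add_mem (hf b) (hg b)
  zero_mem' := by
    refine ⟨0, ?_, by rw [map_zero]⟩
    rw [chainIn_iff]
    intro b
    rw [map_zero]
    exact (Sc K (Fam U b) (i + 1)).zero_mem
  smul_mem' := by
    rintro c _ ⟨f, hf, rfl⟩
    refine ⟨c • f, ?_, ?_⟩
    · rw [chainIn_iff] at *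
      intro b
      rw [map_smul]
      exact (Sc K (Fam U b) (i + 1)).smul_mem c (hf b)
    · have : ∀ f : Finset (Fin n) → MvPolynomial (Fin n) K,
          c • f = (C c : MvPolynomial (Fin n) K) • f := by
        intro f
        funext σ
        simp [MvPolynomial.smul_eq_C_mul]
      rw [this, map_smul, this]

/-- Koszul homology with coefficients in a monomial ideal. -/
def HK (U : Set (Fin n →₀ ℕ)) (i : ℕ) : Type :=
  ↥(ZK K U i) ⧸ (BK K U i).submoduleOf (ZK K U i)

noncomputable instance (U : Set (Fin n →₀ ℕ)) (i : ℕ) : AddCommGroup (HK K U i) :=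
  inferInstanceAs (AddCommGroup (↥(ZK K U i) ⧸ (BK K U i).submoduleOf (ZK K U i)))

noncomputable instance (U : Set (Fin n →₀ ℕ)) (i : ℕ) : Module K (HK K U i) :=
  inferInstanceAs (Module K (↥(ZK K U i) ⧸ (BK K U i).submoduleOf (ZK K U i)))

/-- The class of a cycle. -/
noncomputable def mkHK (U : Set (Fin n →₀ ℕ)) (i : ℕ) : ↥(ZK K U i) →ₗ[K] HK K U i :=
  ((BK K U i).submoduleOf (ZK K U i)).mkQ

lemma mkHK_surjective (U : Set (Fin n →₀ ℕ)) (i : ℕ) : Function.Surjective (mkHK K U i) :=
  Submodule.mkQ_surjective _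

variable {K} in
lemma mkHK_eq_zero {U : Set (Fin n →₀ ℕ)} {i : ℕ} {g : ↥(ZK K U i)} :
    mkHK K U i g = 0 ↔ (g : Finset (Fin n) → MvPolynomial (Fin n) K) ∈ BK K U i :=
  Submodule.Quotient.mk_eq_zero _

variable {K}

lemma mem_ZK {U : Set (Fin n →₀ ℕ)} {i : ℕ} {f : Finset (Fin n) → MvPolynomial (Fin n) K} :
    f ∈ ZK K U i ↔ ChainIn U i f ∧ D (fun j => (X j : MvPolynomial (Fin n) K)) f = 0 := Iff.rfl

lemma mem_BK {U : Set (Fin n →₀ ℕ)} {i : ℕ} {f : Finset (Fin n) → MvPolynomial (Fin n) K} :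
    f ∈ BK K U i ↔ ∃ g, ChainIn U (i + 1) g ∧
      D (fun j => (X j : MvPolynomial (Fin n) K)) g = f := Iff.rfl

lemma incl_mem_ZK {U : Set (Fin n →₀ ℕ)} {i : ℕ} {b : Fin n →₀ ℕ} {g : Finset (Fin n) → K}
    (hg : g ∈ Zc K (Fam U b) i) : incl b g ∈ ZK K U i := by
  rw [mem_Zc] at hg
  refine ⟨chainIn_incl hg.1, ?_⟩
  rw [← incl_D hg.1.ind_le, hg.2, map_zero]

lemma incl_mem_BK {U : Set (Fin n →₀ ℕ)} {i : ℕ} {b : Fin n →₀ ℕ} {g : Finset (Fin n) → K}
    (hg : g ∈ Bc K (Fam U b) i) : incl b g ∈ BK K U i := by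
  rw [mem_Bc] at hg
  obtain ⟨h, hh, rfl⟩ := hg
  refine ⟨incl b h, chainIn_incl hh, ?_⟩
  rw [incl_D hh.ind_le]

lemma comp_mem_Zc {U : Set (Fin n →₀ ℕ)} {i : ℕ} (b : Fin n →₀ ℕ)
    {f : Finset (Fin n) → MvPolynomial (Fin n) K} (hf : f ∈ ZK K U i) :
    comp b f ∈ Zc K (Fam U b) i := by
  rw [mem_Zc]
  refine ⟨chainIn_iff.mp hf.1 b, ?_⟩
  rw [← comp_D, hf.2, map_zero]

lemma comp_mem_Bc {U : Set (Fin n →₀ ℕ)} {i : ℕ} (b : Fin n →₀ ℕ)
    {f : Finset (Fin n) → MvPolynomial (Fin n) K} (hf : f ∈ BK K U i) :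
    comp b f ∈ Bc K (Fam U b) i := by
  obtain ⟨g, hg, rfl⟩ := hf
  rw [mem_Bc]
  exact ⟨comp b g, chainIn_iff.mp hg b, by rw [← comp_D]⟩

/-- Inclusion of a graded component of homology. -/
noncomputable def inclH (U : Set (Fin n →₀ ℕ)) (i : ℕ) (b : Fin n →₀ ℕ) :
    Hc K (Fam U b) i →ₗ[K] HK K U i :=
  Submodule.liftQ _ (mkHK K U i ∘ₗ (incl b).restrict (p := Zc K (Fam U b) i) (q := ZK K U i)
    (fun _ hg => incl_mem_ZK hg)) (by
      rintro ⟨g, hg⟩ h
      rw [LinearMap.mem_ker, LinearMap.comp_apply, mkHK_eq_zero]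
      exact incl_mem_BK (K := K) h)

/-- Projection to a graded component of homology. -/
noncomputable def compH (U : Set (Fin n →₀ ℕ)) (i : ℕ) (b : Fin n →₀ ℕ) :
    HK K U i →ₗ[K] Hc K (Fam U b) i :=
  Submodule.liftQ _ (mkHc K (Fam U b) i ∘ₗ
    (comp b).restrict (p := ZK K U i) (q := Zc K (Fam U b) i)
    (fun _ hg => comp_mem_Zc b hg)) (by
      rintro ⟨g, hg⟩ h
      rw [LinearMap.mem_ker, LinearMap.comp_apply, mkHc_eq_zero]
      exact comp_mem_Bc (K := K) b h)

lemma inclH_mk (U : Set (Fin n →₀ ℕ)) (i : ℕ) (b : Fin n →₀ ℕ) (g : Zc K (Fam U b) i) :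
    inclH U i b (mkHc K _ i g) = mkHK K U i ⟨incl b g.1, incl_mem_ZK g.2⟩ := rfl

lemma compH_mk (U : Set (Fin n →₀ ℕ)) (i : ℕ) (b : Fin n →₀ ℕ) (f : ZK K U i) :
    compH U i b (mkHK K U i f) = mkHc K _ i ⟨comp b f.1, comp_mem_Zc b f.2⟩ := rfl

lemma compH_inclH_self (U : Set (Fin n →₀ ℕ)) (i : ℕ) (b : Fin n →₀ ℕ)
    (h : Hc K (Fam U b) i) :
    compH U i b (inclH U i b h) = h := by
  obtain ⟨⟨g, hg⟩, rfl⟩ := mkHc_surjective K _ _ h
  rw [inclH_mk, compH_mk]
  congr 1
  exact Subtype.ext (comp_incl_self (mem_Zc.mp hg).1.ind_le)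

lemma compH_inclH_ne (U : Set (Fin n →₀ ℕ)) (i : ℕ) {b b' : Fin n →₀ ℕ} (hb : b ≠ b')
    (h : Hc K (Fam U b) i) :
    compH U i b' (inclH U i b h) = 0 := by
  obtain ⟨⟨g, hg⟩, rfl⟩ := mkHc_surjective K _ _ h
  rw [inclH_mk, compH_mk, mkHc_eq_zero]
  change comp b' (incl b g) ∈ _
  rw [comp_incl_ne hb (mem_Zc.mp hg).1.ind_le]
  exact zero_mem _

/-- The total map. -/
noncomputable def totH (U : Set (Fin n →₀ ℕ)) (i : ℕ) :
    (DirectSum (Fin n →₀ ℕ) fun b => Hc K (Fam U b) i) →ₗ[K] HK K U i :=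
  DirectSum.toModule K (Fin n →₀ ℕ) (HK K U i) fun b => inclH U i b

lemma totH_of (U : Set (Fin n →₀ ℕ)) (i : ℕ) (b : Fin n →₀ ℕ) (h : Hc K (Fam U b) i) :
    totH U i (DirectSum.of (fun b => Hc K (Fam U b) i) b h) = inclH U i b h := by
  rw [totH, ← DirectSum.lof_eq_of K, DirectSum.toModule_lof]

lemma compH_totH (U : Set (Fin n →₀ ℕ)) (i : ℕ) (b : Fin n →₀ ℕ)
    (x : DirectSum (Fin n →₀ ℕ) fun b => Hc K (Fam U b) i) :
    compH U i b (totH U i x) = x b := by
  classical
  induction x using DirectSum.induction_on with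
  | zero => simp
  | of b' h =>
    rw [totH_of]
    by_cases hb : b' = b
    · subst hb
      rw [compH_inclH_self, DirectSum.of_eq_same]
    · rw [compH_inclH_ne _ _ hb, DirectSum.of_eq_of_ne _ _ _ (Ne.symm hb)]
  | add x y hx hy => rw [map_add, map_add, hx, hy, DirectSum.add_apply]

lemma totH_injective (U : Set (Fin n →₀ ℕ)) (i : ℕ) : Function.Injective (totH (K := K) U i) := by
  rw [injective_iff_map_eq_zero]
  intro x hx
  refine DFinsupp.ext fun b => ?_
  have := compH_totH U i b x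
  rw [hx, map_zero] at this
  exact this.symm

lemma totH_surjective (U : Set (Fin n →₀ ℕ)) (i : ℕ) : Function.Surjective (totH (K := K) U i) := by
  classical
  intro y
  obtain ⟨⟨f, hf⟩, rfl⟩ := mkHK_surjective K U i y
  set s := (comp_finite f).toFinset with hs
  have hsum : f = ∑ b ∈ s, incl b (comp b f) := by
    apply comp_ext
    intro b
    rw [map_sum]
    have hb' : ∀ b' ∈ s, b' ≠ b → comp b (incl b' (comp b' f)) = 0 := by
      intro b' _ hne
      exact comp_incl_ne hne (chainIn_iff.mp hf.1 b').ind_le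
    by_cases hb : b ∈ s
    · rw [Finset.sum_eq_single_of_mem b hb hb', comp_incl_self (chainIn_iff.mp hf.1 b).ind_le]
    · have h0 : comp b f = 0 := by
        by_contra hne
        exact hb (by rw [hs, Set.Finite.mem_toFinset]; exact hne)
      rw [h0]
      symm
      refine Finset.sum_eq_zero fun b' hb'' => hb' b' hb'' ?_
      rintro rfl
      exact hb hb''
  refine ⟨∑ b ∈ s, DirectSum.of (fun b => Hc K (Fam U b) i) b
    (mkHc K _ i ⟨comp b f, comp_mem_Zc b hf⟩), ?_⟩
  rw [map_sum]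
  have h1 : ∀ b ∈ s, totH U i (DirectSum.of (fun b => Hc K (Fam U b) i) b
      (mkHc K _ i ⟨comp b f, comp_mem_Zc b hf⟩)) =
      mkHK K U i (⟨incl b (comp b f), incl_mem_ZK (comp_mem_Zc b hf)⟩ : ZK K U i) := by
    intro b _
    rw [totH_of, inclH_mk]
  rw [Finset.sum_congr rfl h1, ← map_sum]
  congr 1
  apply Subtype.ext
  rw [AddSubmonoidClass.coe_finsetSum]
  exact hsum.symm

/-- Koszul homology of a monomial ideal is the direct sum of homologies of finite families. -/
noncomputable def equivH (U : Set (Fin n →₀ ℕ)) (i : ℕ) :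
    (DirectSum (Fin n →₀ ℕ) fun b => Hc K (Fam U b) i) ≃ₗ[K] HK K U i :=
  LinearEquiv.ofBijective (totH U i) ⟨totH_injective U i, totH_surjective U i⟩

theorem rank_HK (U : Set (Fin n →₀ ℕ)) (i : ℕ) :
    Module.rank K (HK K U i) =
      Cardinal.sum fun b : Fin n →₀ ℕ => ((Module.finrank K (Hc K (Fam U b) i) : ℕ) : Cardinal.{0}) := by
  rw [← (equivH U i).rank_eq, rank_directSum]
  congr 1
  funext b
  rw [Module.finrank_eq_rank]

end Pool.Agent.Lib.MP_f65b1b_al
end

section

/-!
# The Koszul resolution of the residue field of a polynomial ring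
-/

namespace Pool.Agent.Lib.MP_f65b1b_al

open CategoryTheory Limits MonoidalCategory MvPolynomial

variable {n : ℕ} {K : Type} [Field K]

lemma joinV_suppIn {b : Fin n →₀ ℕ} {v : Fin n} (hv : b v ≠ 0) {i : ℕ} {g : Finset (Fin n) → K}
    (hg : SuppIn (Fam Set.univ b) i g) : SuppIn (Fam Set.univ b) (i + 1) (joinV v g) := by
  intro σ hσ
  rw [joinV]
  split_ifs with hvσ
  · rw [hg, smul_zero]
    rintro ⟨⟨h1, -⟩, h2⟩
    apply hσ
    refine ⟨⟨?_, Set.mem_univ _⟩, ?_⟩
    · rw [ind_le_iff] at h1 ⊢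
      intro j hj
      by_cases h : j = v
      · rw [h]; exact hv
      · exact h1 j (Finset.mem_erase.mpr ⟨h, hj⟩)
    · rw [Finset.card_erase_of_mem hvσ] at h2
      have := Finset.card_pos.mpr ⟨v, hvσ⟩
      omega
  · rfl

lemma exact_aux {f : Finset (Fin n) → MvPolynomial (Fin n) K} {i : ℕ}
    (hsupp : ∀ σ, σ.card ≠ i → f σ = 0)
    (hD : D (fun j => (X j : MvPolynomial (Fin n) K)) f = 0) (h0 : comp 0 f = 0) :
    ∃ g : Finset (Fin n) → MvPolynomial (Fin n) K, (∀ σ, σ.card ≠ i + 1 → g σ = 0) ∧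
      D (fun j => (X j : MvPolynomial (Fin n) K)) g = f := by
  classical
  have hf : ChainIn Set.univ i f := fun σ => ⟨fun a _ => Set.mem_univ a, hsupp σ⟩
  rw [chainIn_iff] at hf
  have hex : ∀ b : Fin n →₀ ℕ, ∃ g : Finset (Fin n) → K, SuppIn (Fam Set.univ b) (i + 1) g ∧
      D (fun _ => (1 : K)) g = comp b f ∧ (comp b f = 0 → g = 0) := by
    intro b
    by_cases hb : b = 0
    · subst hb
      exact ⟨0, fun σ _ => rfl, by rw [map_zero, h0], fun _ => rfl⟩
    · obtain ⟨v, hv⟩ := DFunLike.ne_iff.mp hb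
      refine ⟨joinV v (comp b f), joinV_suppIn hv (hf b), ?_, fun h => ?_⟩
      · have h1 := D_joinV (S := K) v (comp b f)
        have h2 : D (fun _ => (1 : K)) (comp b f) = 0 := by
          rw [← comp_D, hD, map_zero]
        rw [h2] at h1
        have h3 : joinV v (0 : Finset (Fin n) → K) = 0 := by
          funext σ; simp [joinV]
        rw [h3, add_zero] at h1
        exact h1
      · rw [h]
        funext σ; simp [joinV]
  choose G hG1 hG2 hG3 using hex
  set s := (comp_finite f).toFinset with hs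
  have hcomp : ∀ b, comp b (∑ b' ∈ s, incl b' (G b')) = G b := by
    intro b
    rw [map_sum]
    by_cases hb : b ∈ s
    · rw [Finset.sum_eq_single_of_mem b hb, comp_incl_self (hG1 b).ind_le]
      intro b' _ hne
      exact comp_incl_ne hne (hG1 b').ind_le
    · have h1 : G b = 0 := by
        apply hG3
        by_contra hne
        exact hb (by rw [hs, Set.Finite.mem_toFinset]; exact hne)
      rw [h1]
      refine Finset.sum_eq_zero fun b' hb' => comp_incl_ne ?_ (hG1 b').ind_le
      rintro rfl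
      exact hb hb'
  refine ⟨∑ b' ∈ s, incl b' (G b'), ?_, ?_⟩
  · have : ChainIn Set.univ (i + 1) (∑ b' ∈ s, incl b' (G b')) := by
      rw [chainIn_iff]
      intro b
      rw [hcomp]
      exact hG1 b
    exact fun σ => (this σ).2
  · apply comp_ext
    intro b
    rw [comp_D, hcomp, hG2]

lemma exact_succ {i : ℕ} {f : Idx n (i + 1) → MvPolynomial (Fin n) K}
    (hf : dK (fun j => (X j : MvPolynomial (Fin n) K)) (MvPolynomial (Fin n) K) i f = 0) :
    ∃ g, dK (fun j => (X j : MvPolynomial (Fin n) K)) (MvPolynomial (Fin n) K) (i + 1) g = f := by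
  classical
  obtain ⟨g, hg1, hg2⟩ := exact_aux
    (extK_supp (S := MvPolynomial (Fin n) K) (i + 1) f)
    (by rw [← extK_dK, hf, map_zero]) (by
      funext σ
      rw [comp_apply]
      split_ifs with h
      · have : σ = ∅ := by
          rw [ind_le_iff] at h
          by_contra hne
          obtain ⟨j, hj⟩ := Finset.nonempty_iff_ne_empty.mpr hne
          exact h j hj rfl
        rw [extK_supp (S := MvPolynomial (Fin n) K) (i + 1) f σ (by rw [this]; simp)]
        simp
      · rfl)
  refine ⟨resK (MvPolynomial (Fin n) K) (MvPolynomial (Fin n) K) _ g, ?_⟩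
  apply extK_injective (S := MvPolynomial (Fin n) K)
  rw [extK_dK, extK_resK hg1, hg2]

lemma exact_zero {f : Idx n 0 → MvPolynomial (Fin n) K}
    (hf : constantCoeff (f ⟨∅, rfl⟩) = 0) :
    ∃ g, dK (fun j => (X j : MvPolynomial (Fin n) K)) (MvPolynomial (Fin n) K) 0 g = f := by
  classical
  obtain ⟨g, hg1, hg2⟩ := exact_aux
    (extK_supp (S := MvPolynomial (Fin n) K) 0 f)
    (D_supp_zero _ (extK_supp 0 f)) (by
      funext σ
      rw [comp_apply]
      split_ifs with h
      · have : σ = ∅ := by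
          rw [ind_le_iff] at h
          by_contra hne
          obtain ⟨j, hj⟩ := Finset.nonempty_iff_ne_empty.mpr hne
          exact h j hj rfl
        subst this
        rw [extK_apply, dif_pos (Finset.card_empty)]
        simpa [constantCoeff_eq] using hf
      · rfl)
  refine ⟨resK (MvPolynomial (Fin n) K) (MvPolynomial (Fin n) K) _ g, ?_⟩
  apply extK_injective (S := MvPolynomial (Fin n) K)
  rw [extK_dK, extK_resK hg1, hg2]

variable (K n) in
/-- The residue field `K` as a module over the polynomial ring. -/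
noncomputable abbrev resid : ModuleCat.{0} (MvPolynomial (Fin n) K) :=
  (ModuleCat.restrictScalars (constantCoeff : MvPolynomial (Fin n) K →+* K)).obj (ModuleCat.of K K)

variable (K n) in
/-- The augmentation, as a linear map. -/
noncomputable def augL : (Idx n 0 → MvPolynomial (Fin n) K) →ₗ[MvPolynomial (Fin n) K] resid n K where
  toFun := fun f => (constantCoeff (f ⟨∅, rfl⟩) : K)
  map_add' := by
    intro f g
    exact map_add (constantCoeff : MvPolynomial (Fin n) K →+* K) _ _
  map_smul' := by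
    intro c f
    exact map_mul (constantCoeff : MvPolynomial (Fin n) K →+* K) _ _

lemma augL_apply (f : Idx n 0 → MvPolynomial (Fin n) K) :
    augL n K f = (constantCoeff (f ⟨∅, rfl⟩) : K) := rfl

lemma augL_surjective : Function.Surjective (augL n K) := by
  intro (k : K)
  exact ⟨fun _ => (C k : MvPolynomial (Fin n) K), constantCoeff_C (Fin n) k⟩

lemma augL_dK (f : Idx n 1 → MvPolynomial (Fin n) K) :
    augL n K (dK (fun j => (X j : MvPolynomial (Fin n) K)) (MvPolynomial (Fin n) K) 0 f) = 0 := by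
  have h : (constantCoeff : MvPolynomial (Fin n) K →+* K)
      (dK (fun j => (X j : MvPolynomial (Fin n) K)) (MvPolynomial (Fin n) K) 0 f ⟨∅, rfl⟩) = 0 := by
    rw [dK_apply, resK_apply, D_apply, map_sum]
    refine Finset.sum_eq_zero fun j _ => ?_
    simp
  exact h

end Pool.Agent.Lib.MP_f65b1b_al
end

section

/-!
# Homology of finite families is independent of the characteristic, up to finitely many primes
-/

namespace Pool.Agent.Lib.MP_f65b1b_al

open Finset

variable {n : ℕ}

/-- Chains supported in `T`. -/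
def ScT (K : Type) [Field K] (T : Set (Finset (Fin n))) : Submodule K (Finset (Fin n) → K) where
  carrier := {g | ∀ σ, σ ∉ T → g σ = 0}
  add_mem' := by
    intro f g hf hg σ hσ
    rw [Pi.add_apply, hf σ hσ, hg σ hσ, add_zero]
  zero_mem' := fun σ _ => rfl
  smul_mem' := by
    intro c f hf σ hσ
    rw [Pi.smul_apply, hf σ hσ, smul_zero]

lemma Sc_eq (K : Type) [Field K] (Δ : Set (Finset (Fin n))) (i : ℕ) :
    Sc K Δ i = ScT K {σ | σ ∈ Δ ∧ σ.card = i} := rfl

open Classical in
/-- Coordinate projection. -/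
noncomputable def PT (T : Set (Finset (Fin n))) : Matrix (Finset (Fin n)) (Finset (Fin n)) ℤ :=
  Matrix.of fun τ σ => if σ ∈ T ∧ τ = σ then 1 else 0

open Classical in
/-- Boundary matrix restricted to `T`. -/
noncomputable def AT (T : Set (Finset (Fin n))) : Matrix (Finset (Fin n)) (Finset (Fin n)) ℤ :=
  Matrix.of fun τ σ => if σ ∈ T then
    (∑ j, if j ∈ τ then 0 else if insert j τ = σ then sgn j τ else 0) else 0

lemma range_PT (K : Type) [Field K] (T : Set (Finset (Fin n))) :
    LinearMap.range ((PT T).map (Int.cast : ℤ → K)).mulVecLin = ScT K T := by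
  classical
  have h : ∀ g : Finset (Fin n) → K, ∀ τ, ((PT T).map (Int.cast : ℤ → K)).mulVecLin g τ =
      if τ ∈ T then g τ else 0 := by
    intro g τ
    rw [Matrix.mulVecLin_apply, Matrix.mulVec, dotProduct]
    simp only [Matrix.map_apply, PT, Matrix.of_apply]
    rw [Finset.sum_eq_single τ]
    · by_cases hτ : τ ∈ T <;> simp [hτ]
    · intro σ _ hσ
      simp [Ne.symm hσ]
    · simp
  apply le_antisymm
  · rintro _ ⟨g, rfl⟩ σ hσ
    rw [h, if_neg hσ]
  · intro g hg
    refine ⟨g, ?_⟩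
    funext τ
    rw [h]
    split_ifs with hτ
    · rfl
    · exact (hg τ hτ).symm

lemma range_AT (K : Type) [Field K] (T : Set (Finset (Fin n))) :
    LinearMap.range ((AT T).map (Int.cast : ℤ → K)).mulVecLin =
      (ScT K T).map (D (M := K) (fun _ => (1 : K))) := by
  classical
  have h : ∀ g : Finset (Fin n) → K, ((AT T).map (Int.cast : ℤ → K)).mulVecLin g =
      D (fun _ => (1 : K)) (fun σ => if σ ∈ T then g σ else 0) := by
    intro g
    funext τ
    rw [Matrix.mulVecLin_apply, Matrix.mulVec, dotProduct, D_apply]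
    simp only [Matrix.map_apply, AT, Matrix.of_apply]
    have h1 : ∀ σ : Finset (Fin n), (((if σ ∈ T then
        (∑ j, if j ∈ τ then 0 else if insert j τ = σ then sgn j τ else 0) else 0 : ℤ) : K)) * g σ =
        ∑ j, if j ∈ τ then 0 else if insert j τ = σ then
          ((sgn j τ : ℤ) : K) * (if σ ∈ T then g σ else 0) else 0 := by
      intro σ
      by_cases hσ : σ ∈ T
      · rw [if_pos hσ, Int.cast_sum, Finset.sum_mul]
        refine Finset.sum_congr rfl fun j _ => ?_
        split_ifs <;> simp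
      · simp [hσ]
    rw [Finset.sum_congr rfl fun σ _ => h1 σ, Finset.sum_comm]
    refine Finset.sum_congr rfl fun j _ => ?_
    by_cases hj : j ∈ τ
    · simp [hj]
    · simp only [if_neg hj]
      rw [Finset.sum_eq_single (insert j τ)]
      · simp
      · intro σ _ hσ
        rw [if_neg (Ne.symm hσ)]
      · simp
  apply le_antisymm
  · rintro _ ⟨g, rfl⟩
    rw [h]
    refine Submodule.mem_map_of_mem ?_
    intro σ hσ
    simp [hσ]
  · rintro _ ⟨g, hg, rfl⟩
    refine ⟨g, ?_⟩
    rw [h]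
    congr 1
    funext σ
    split_ifs with hσ
    · rfl
    · exact (hg σ hσ).symm

lemma finrank_Hc (K : Type) [Field K] {Δ : Set (Finset (Fin n))} (hΔ : DownClosed Δ) (i : ℕ) :
    Module.finrank K (Hc K Δ i) +
      ((AT {σ | σ ∈ Δ ∧ σ.card = i + 1}).map (Int.cast : ℤ → K)).rank +
      ((AT {σ | σ ∈ Δ ∧ σ.card = i}).map (Int.cast : ℤ → K)).rank =
      ((PT {σ | σ ∈ Δ ∧ σ.card = i}).map (Int.cast : ℤ → K)).rank := by
  rw [Matrix.rank, Matrix.rank, Matrix.rank, range_PT, range_AT, range_AT, ← Sc_eq, ← Sc_eq]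
  have hle : Bc K Δ i ≤ Zc K Δ i := by
    intro g hg
    rw [mem_Bc] at hg
    obtain ⟨h, hh, rfl⟩ := hg
    rw [mem_Zc]
    exact ⟨suppIn_D hΔ hh, D_D _ _⟩
  have h1 : Module.finrank K (Hc K Δ i) + Module.finrank K (Bc K Δ i) =
      Module.finrank K (Zc K Δ i) := by
    have := Submodule.finrank_quotient_add_finrank ((Bc K Δ i).submoduleOf (Zc K Δ i))
    rw [(Submodule.submoduleOfEquivOfLe hle).finrank_eq] at this
    exact this
  have h2 : Module.finrank K ((Sc K Δ i).map (D (M := K) (fun _ => (1 : K)))) +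
      Module.finrank K (Zc K Δ i) = Module.finrank K (Sc K Δ i) := by
    have := LinearMap.finrank_range_add_finrank_ker
      ((D (M := K) (fun _ : Fin n => (1 : K))).domRestrict (Sc K Δ i))
    rw [LinearMap.range_domRestrict, LinearMap.ker_domRestrict] at this
    rw [← this]
    congr 1
    have h3 : Zc K Δ i ≤ Sc K Δ i := inf_le_left
    rw [← (Submodule.submoduleOfEquivOfLe h3).finrank_eq]
    have : (Zc K Δ i).submoduleOf (Sc K Δ i) = Submodule.comap (Sc K Δ i).subtype
        (LinearMap.ker (D (M := K) (fun _ : Fin n => (1 : K)))) := by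
      ext ⟨g, hg⟩
      change g ∈ Zc K Δ i ↔ g ∈ LinearMap.ker _
      rw [Zc, Submodule.mem_inf]
      exact ⟨fun h => h.2, fun h => ⟨hg, h⟩⟩
    rw [this]
  have h4 : Module.finrank K (Bc K Δ i) =
    Module.finrank K ((Sc K Δ (i + 1)).map (D (M := K) (fun _ => (1 : K)))) := rfl
  omega

/-- For every `n` there is a nonzero integer `N` such that the homology of every family of subsets
of `{1,…,n}` has the same dimension over all fields in which `N ≠ 0` as over `ℚ`. -/
theorem exists_finrank_Hc_eq (n : ℕ) :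
    ∃ N : ℤ, N ≠ 0 ∧ ∀ (L : Type) [Field L], (N : L) ≠ 0 →
      ∀ (Δ : Set (Finset (Fin n))), DownClosed Δ → ∀ i : ℕ,
        Module.finrank L (Hc L Δ i) = Module.finrank ℚ (Hc ℚ Δ i) := by
  classical
  obtain ⟨N, hN, h⟩ := exists_rank_eq_family
    (fun x : Set (Finset (Fin n)) ⊕ Set (Finset (Fin n)) => Sum.elim (AT (n := n)) (PT (n := n)) x)
  refine ⟨N, hN, fun L _ hL Δ hΔ i => ?_⟩
  have h1 := finrank_Hc L hΔ i
  have h2 := finrank_Hc ℚ hΔ i
  have hA := fun T => h L hL (Sum.inl T)
  have hP := fun T => h L hL (Sum.inr T)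
  simp only [Sum.elim_inl, Sum.elim_inr] at hA hP
  rw [hA, hA, hP] at h1
  omega

end Pool.Agent.Lib.MP_f65b1b_al
end

section

/-!
# Tor from the Koszul complex
-/

namespace Pool.Agent.Lib.MP_f65b1b_al

open CategoryTheory Limits MonoidalCategory MvPolynomial

variable (n : ℕ) (K : Type) [Field K]

/-- The Koszul complex of the variables. -/
noncomputable abbrev KX (M : ModuleCat.{0} (MvPolynomial (Fin n) K)) :
    ChainComplex (ModuleCat.{0} (MvPolynomial (Fin n) K)) ℕ :=
  kosz (fun j => (X j : MvPolynomial (Fin n) K)) M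

lemma KX_exactAt_succ (i : ℕ) :
    (KX n K (ModuleCat.of _ (MvPolynomial (Fin n) K))).ExactAt (i + 1) := by
  rw [HomologicalComplex.exactAt_iff' _ (i + 1 + 1) (i + 1) i (by simp) (by simp)]
  rw [ShortComplex.moduleCat_exact_iff]
  intro f hf
  change (kosz _ _).d (i + 1) i f = 0 at hf
  change ∃ g, (kosz _ _).d (i + 1 + 1) (i + 1) g = f
  rw [kosz_d] at hf ⊢
  obtain ⟨g, hg⟩ := exact_succ (K := K) (n := n) (i := i) (f := f) hf
  exact ⟨g, hg⟩

/-- The augmentation as a morphism. -/
noncomputable def augHom : (KX n K (ModuleCat.of _ (MvPolynomial (Fin n) K))).X 0 ⟶ resid n K :=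
  ModuleCat.ofHom (Y := resid n K) (augL n K)

lemma augHom_apply (f : Idx n 0 → MvPolynomial (Fin n) K) :
    (augHom n K).hom f = augL n K f := rfl

lemma augHom_comp : (KX n K (ModuleCat.of _ (MvPolynomial (Fin n) K))).d 1 0 ≫
    augHom n K = 0 := by
  rw [kosz_d]
  refine ModuleCat.hom_ext (LinearMap.ext fun f => ?_)
  exact augL_dK f

lemma aug_exact : (ShortComplex.mk ((KX n K (ModuleCat.of _ (MvPolynomial (Fin n) K))).d 1 0)
    (augHom n K) (augHom_comp n K)).Exact := by
  rw [ShortComplex.moduleCat_exact_iff]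
  intro f hf
  change ∃ g, (kosz _ _).d (0 + 1) 0 g = f
  rw [kosz_d]
  obtain ⟨g, hg⟩ := exact_zero (K := K) (n := n) (f := f) hf
  exact ⟨g, hg⟩

lemma aug_epi : Epi (augHom n K) := by
  rw [ModuleCat.epi_iff_surjective]
  exact augL_surjective

/-- The Koszul resolution of the residue field. -/
noncomputable def koszRes : ProjectiveResolution (resid n K) where
  complex := KX n K (ModuleCat.of _ (MvPolynomial (Fin n) K))
  projective i := by
    rw [kosz_X]
    have : Module.Free (MvPolynomial (Fin n) K) (Idx n i → MvPolynomial (Fin n) K) := inferInstance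
    exact ModuleCat.projective_of_free (Module.Free.chooseBasis _ _)
  π := (ChainComplex.toSingle₀Equiv _ _).symm ⟨augHom n K, augHom_comp n K⟩
  quasiIso := ⟨fun i => by
    cases i
    · rw [ChainComplex.quasiIsoAt₀_iff, ShortComplex.quasiIso_iff_of_zeros']
      · refine (ShortComplex.exact_and_epi_g_iff_of_iso ?_).2
          ⟨aug_exact n K, aug_epi n K⟩
        exact ShortComplex.isoMk (Iso.refl _) (Iso.refl _) (Iso.refl _)
          ((Category.id_comp _).trans (Category.comp_id _).symm)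
          ((Category.id_comp _).trans (Category.comp_id _).symm)
      all_goals rfl
    · rw [quasiIsoAt_iff_exactAt']
      · apply KX_exactAt_succ
      · apply ChainComplex.exactAt_succ_single_obj⟩

/-- Tor is Koszul homology. -/
noncomputable def torIso (M : ModuleCat.{0} (MvPolynomial (Fin n) K)) (i : ℕ) :
    ((Tor (ModuleCat.{0} (MvPolynomial (Fin n) K)) i).obj M).obj (resid n K) ≅
      (KX n K M).homology i :=
  (koszRes n K).isoLeftDerivedObj ((tensoringLeft _).obj M) i ≪≫
    (HomologicalComplex.homologyFunctor _ _ i).mapIso (koszIso _ M)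

end Pool.Agent.Lib.MP_f65b1b_al
end

section

/-!
# The rank of Tor of a monomial ideal
-/

namespace Pool.Agent.Lib.MP_f65b1b_al

open CategoryTheory Limits MonoidalCategory MvPolynomial

/-- Ranks of homology over a subfield, from a surjection from cycles with kernel the boundaries. -/
theorem rank_homology_eq {S : Type} [CommRing S] {K : Type} [Field K] (φ : K →+* S)
    (C : ShortComplex (ModuleCat.{0} S)) (V : Type) [AddCommGroup V] [Module K V]
    (ψ : LinearMap.ker C.g.hom →+ V) (hs : Function.Surjective ψ)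
    (hk : ∀ z, ψ z = 0 ↔ ∃ y, C.f y = z.1) (hsmul : ∀ (c : K) z, ψ (φ c • z) = c • ψ z) :
    Module.rank K ((ModuleCat.restrictScalars φ).obj C.homology) = Module.rank K V := by
  have e1 : Module.rank K ((ModuleCat.restrictScalars φ).obj C.homology) =
      Module.rank K ((ModuleCat.restrictScalars φ).obj C.moduleCatLeftHomologyData.H) :=
    ((ModuleCat.restrictScalars φ).mapIso C.moduleCatHomologyIso).toLinearEquiv.rank_eq
  rw [e1]
  let A : ModuleCat.{0} K := (ModuleCat.restrictScalars φ).obj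
    (ModuleCat.of S (LinearMap.ker C.g.hom))
  let Q : ModuleCat.{0} K := (ModuleCat.restrictScalars φ).obj C.moduleCatLeftHomologyData.H
  let πK : A →ₗ[K] Q := ((ModuleCat.restrictScalars φ).map
    (ModuleCat.ofHom (LinearMap.range C.moduleCatToCycles).mkQ)).hom
  let ψK : A →ₗ[K] V :=
    { toFun := fun z => ψ z
      map_add' := fun a b => ψ.map_add a b
      map_smul' := fun c z => hsmul c z }
  have hπs : Function.Surjective πK :=
    Submodule.mkQ_surjective (LinearMap.range C.moduleCatToCycles)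
  have hψs : Function.Surjective ψK := hs
  have hker : LinearMap.ker πK = LinearMap.ker ψK := by
    ext z
    rw [LinearMap.mem_ker, LinearMap.mem_ker]
    have h1 : πK z = 0 ↔ (z : LinearMap.ker C.g.hom) ∈ LinearMap.range C.moduleCatToCycles :=
      Submodule.Quotient.mk_eq_zero _
    have h2 : ψK z = 0 ↔ ∃ y, C.f y = (z : LinearMap.ker C.g.hom).1 := hk z
    rw [h1, h2]
    constructor
    · rintro ⟨y, hy⟩
      exact ⟨y, congrArg Subtype.val hy⟩
    · rintro ⟨y, hy⟩
      exact ⟨y, Subtype.ext hy⟩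
  have e2 := (πK.quotKerEquivOfSurjective hπs).rank_eq
  have e3 := (ψK.quotKerEquivOfSurjective hψs).rank_eq
  rw [hker] at e2
  exact e2.symm.trans e3

variable {n : ℕ} {K : Type} [Field K]

lemma D_coe (J : Ideal (MvPolynomial (Fin n) K)) (F : Finset (Fin n) → J) :
    D (fun j => (X j : MvPolynomial (Fin n) K)) (fun σ => (F σ : MvPolynomial (Fin n) K)) =
      fun τ => ((D (M := J) (fun j => (X j : MvPolynomial (Fin n) K)) F τ : J) :
        MvPolynomial (Fin n) K) := by
  funext τ
  rw [D_apply, D_apply, AddSubmonoidClass.coe_finsetSum]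
  refine Finset.sum_congr rfl fun j _ => ?_
  split_ifs <;> simp

/-- Extension by zero, with values in the polynomial ring. -/
noncomputable def toS (J : Ideal (MvPolynomial (Fin n) K)) (i : ℕ) (h : Idx n i → J) :
    Finset (Fin n) → MvPolynomial (Fin n) K :=
  fun σ => (extK (MvPolynomial (Fin n) K) J i h σ : MvPolynomial (Fin n) K)

lemma toS_add (J : Ideal (MvPolynomial (Fin n) K)) (i : ℕ) (g h : Idx n i → J) :
    toS J i (g + h) = toS J i g + toS J i h := by
  funext σ
  rw [toS, map_add]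
  rfl

lemma toS_smul (J : Ideal (MvPolynomial (Fin n) K)) (i : ℕ) (c : K) (h : Idx n i → J) :
    toS J i ((C c : MvPolynomial (Fin n) K) • h) = c • toS J i h := by
  funext σ
  rw [toS, map_smul, Pi.smul_apply, Pi.smul_apply, toS, MvPolynomial.smul_eq_C_mul]
  rfl

lemma toS_injective (J : Ideal (MvPolynomial (Fin n) K)) (i : ℕ) :
    Function.Injective (toS J i) := by
  intro g h hgh
  apply extK_injective (S := MvPolynomial (Fin n) K)
  funext σ
  exact Subtype.ext (congrFun hgh σ)

lemma D_toS (J : Ideal (MvPolynomial (Fin n) K)) (i : ℕ) (h : Idx n (i + 1) → J) :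
    D (fun j => (X j : MvPolynomial (Fin n) K)) (toS J (i + 1) h) =
      toS J i (dK (fun j => (X j : MvPolynomial (Fin n) K)) J i h) := by
  funext τ
  have h1 := D_coe J (extK (MvPolynomial (Fin n) K) J (i + 1) h)
  have h2 := congrFun h1 τ
  rw [← extK_dK] at h2
  exact h2

lemma D_toS_zero (J : Ideal (MvPolynomial (Fin n) K)) (h : Idx n 0 → J) :
    D (fun j => (X j : MvPolynomial (Fin n) K)) (toS J 0 h) = 0 := by
  apply D_supp_zero
  intro σ hσ
  rw [toS, extK_supp 0 h σ hσ]
  rfl

variable {J : Ideal (MvPolynomial (Fin n) K)} {U : Set (Fin n →₀ ℕ)}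

lemma toS_chainIn (hJ : ∀ f, f ∈ J ↔ ∀ a ∈ f.support, a ∈ U) (i : ℕ) (h : Idx n i → J) :
    ChainIn U i (toS J i h) := by
  intro σ
  refine ⟨(hJ _).mp (extK (MvPolynomial (Fin n) K) J i h σ).2, fun hσ => ?_⟩
  rw [toS, extK_supp i h σ hσ]
  rfl

lemma exists_toS (hJ : ∀ f, f ∈ J ↔ ∀ a ∈ f.support, a ∈ U) (i : ℕ)
    {f : Finset (Fin n) → MvPolynomial (Fin n) K} (hf : ChainIn U i f) :
    ∃ h : Idx n i → J, toS J i h = f := by
  refine ⟨fun σ => ⟨f σ.1, (hJ _).mpr (hf σ.1).1⟩, ?_⟩
  funext σ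
  rw [toS, extK_apply]
  split_ifs with hσ
  · rfl
  · exact ((hf σ).2 hσ).symm

lemma d_eq_zero_iff (i : ℕ) (h : Idx n i → J) :
    ((KX n K (ModuleCat.of _ J)).d i (i - 1)).hom h = 0 ↔
      D (fun j => (X j : MvPolynomial (Fin n) K)) (toS J i h) = 0 := by
  cases i with
  | zero =>
    rw [D_toS_zero]
    have : (KX n K (ModuleCat.of _ J)).d 0 (0 - 1) = 0 :=
      (KX n K (ModuleCat.of _ J)).shape _ _ (by simp)
    rw [this]
    exact ⟨fun _ => rfl, fun _ => rfl⟩
  | succ i =>
    rw [D_toS]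
    have : (KX n K (ModuleCat.of _ J)).d (i + 1) (i + 1 - 1) = _ :=
      kosz_d (fun j => (X j : MvPolynomial (Fin n) K)) (ModuleCat.of _ J) i
    rw [this]
    constructor
    · intro h0
      have h1 : dK (fun j => (X j : MvPolynomial (Fin n) K)) J i h = 0 := h0
      rw [h1]
      funext σ
      rw [toS, map_zero]
      rfl
    · intro h0
      have h1 : toS J i (dK (fun j => (X j : MvPolynomial (Fin n) K)) J i h) = toS J i 0 := by
        rw [show toS J i 0 = 0 by funext σ; rw [toS, map_zero]; rfl]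
        exact h0
      exact toS_injective J i h1

/-- The map from cycles to Koszul homology. -/
noncomputable def psi (hJ : ∀ f, f ∈ J ↔ ∀ a ∈ f.support, a ∈ U) (i : ℕ) :
    LinearMap.ker ((KX n K (ModuleCat.of _ J)).d i (i - 1)).hom →+ HK K U i where
  toFun z := mkHK K U i ⟨toS J i z.1, toS_chainIn hJ i z.1, (d_eq_zero_iff i z.1).mp z.2⟩
  map_zero' := by
    rw [mkHK_eq_zero]
    have : toS J i (0 : Idx n i → J) = 0 := by funext σ; rw [toS, map_zero]; rfl
    change toS J i (0 : Idx n i → J) ∈ _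
    rw [this]
    exact zero_mem _
  map_add' a b := by
    rw [← map_add]
    congr 1
    exact Subtype.ext (toS_add J i a.1 b.1)

/-- The rank of Tor of a monomial ideal is the rank of Koszul homology. -/
theorem rank_tor (hJ : ∀ f, f ∈ J ↔ ∀ a ∈ f.support, a ∈ U) (i : ℕ) :
    Module.rank K ((ModuleCat.restrictScalars (C : K →+* MvPolynomial (Fin n) K)).obj
      (((Tor (ModuleCat.{0} (MvPolynomial (Fin n) K)) i).obj (ModuleCat.of _ J)).obj (resid n K))) =
    Module.rank K (HK K U i) := by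
  rw [((ModuleCat.restrictScalars (C : K →+* MvPolynomial (Fin n) K)).mapIso
    (torIso n K (ModuleCat.of _ J) i ≪≫ (KX n K (ModuleCat.of _ J)).homologyIsoSc' (i + 1) i (i - 1)
      (by simp) (by cases i <;> simp))).toLinearEquiv.rank_eq]
  refine rank_homology_eq _ _ _ (psi hJ i) ?_ ?_ ?_
  · intro y
    obtain ⟨⟨f, hf⟩, rfl⟩ := mkHK_surjective K U i y
    obtain ⟨h, rfl⟩ := exists_toS hJ i hf.1
    exact ⟨⟨h, (d_eq_zero_iff i h).mpr hf.2⟩, rfl⟩
  · intro z
    change mkHK K U i _ = 0 ↔ ∃ y, ((KX n K (ModuleCat.of _ J)).d (i + 1) i).hom y = z.1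
    rw [mkHK_eq_zero, mem_BK, kosz_d]
    constructor
    · rintro ⟨g, hg, hgz⟩
      obtain ⟨y, rfl⟩ := exists_toS hJ (i + 1) hg
      refine ⟨y, ?_⟩
      rw [D_toS] at hgz
      exact toS_injective J i hgz
    · rintro ⟨y, hy⟩
      refine ⟨toS J (i + 1) y, toS_chainIn hJ (i + 1) y, ?_⟩
      exact (D_toS J i y).trans (congrArg (toS J i) hy)
  · intro c z
    change mkHK K U i _ = c • mkHK K U i _
    rw [← map_smul]
    congr 1
    exact Subtype.ext (toS_smul J i c z.1)

/-- The rank of Tor of a monomial ideal as a sum over multidegrees. -/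
theorem rank_tor_eq_sum (hJ : ∀ f, f ∈ J ↔ ∀ a ∈ f.support, a ∈ U) (i : ℕ) :
    Module.rank K ((ModuleCat.restrictScalars (C : K →+* MvPolynomial (Fin n) K)).obj
      (((Tor (ModuleCat.{0} (MvPolynomial (Fin n) K)) i).obj (ModuleCat.of _ J)).obj (resid n K))) =
      Cardinal.sum fun b : Fin n →₀ ℕ =>
        ((Module.finrank K (Hc K (Fam U b) i) : ℕ) : Cardinal.{0}) := by
  rw [rank_tor hJ i, rank_HK]

end Pool.Agent.Lib.MP_f65b1b_al
end
end
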